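import Pool.Agent.MWGN.StmtsA

set_option autoImplicit false

namespace Pool.Agent.MWGN.H14

open Pool.Agent.MWK (pre)
open Pool.Agent.MWGN

theorem pre_block (S : ℕ → ℕ) (T : ℕ → List ℕ) (i j : ℕ) (h1 : S i ≠ S j) (h2 : S j ∉ T i)
    (R : List ℕ) : pre ((S i :: T i) ++ R) (S j) = (S i :: T i) ++ pre R (S j) := by
  unfold pre
  refine List.takeWhile_append_of_pos ?_
  intro a ha
  simp only [decide_eq_true_eq]
  rcases List.mem_cons.1 ha with rfl | ha
  · exact h1
  · intro h
    subst h
    exact h2 ha

theorem prf : PrfStmt := by
  intro S T τ
  induction τ with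
  | nil => intro j hj; exact absurd hj (List.not_mem_nil)
  | cons i τ ih =>
    intro j hj hS hT R
    by_cases hij : i = j
    · subst hij
      have e1 : pre (i :: τ) i = [] := by
        unfold pre
        simp
      rw [e1]
      unfold pre
      simp
    · have hj' : j ∈ τ := by
        rcases List.mem_cons.1 hj with h | h
        · exact absurd h.symm hij
        · exact h
      have e1 : pre (i :: τ) j = i :: pre τ j := by
        unfold pre
        simp [hij]
      have hb := pre_block S T i j (hS i (List.mem_cons_self) hij) (hT i (List.mem_cons_self) hij)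
      have hr := ih j hj' (fun k hk => hS k (List.mem_cons_of_mem _ hk))
        (fun k hk => hT k (List.mem_cons_of_mem _ hk)) R
      rw [e1, List.flatMap_cons, List.flatMap_cons, List.append_assoc, hb, hr]

end Pool.Agent.MWGN.H14
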